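import Mathlib
import Pool.Agent.Lib.MP_f006b0_nt_h92.Av

/-! THEOREM V (MP_663568_nt): two-dimensional sieve.  Integers `n` of an interval such that `n` and
`n + d` have no prime factor `≤ y` (adapted from `Lib/MP_f006b0_nt_h92/Sv.lean`).  helper95. -/

set_option autoImplicit false
open Finset

namespace Pool.Agent.SV95

open ArithmeticFunction BoundingSieve
open Pool.Agent.FQ
open Pool.Agent.Lib.MP_663568_nt.Nul.Sel (SC GG)

/-- the lower bound for the Selberg sum in dimension two -/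
theorem Gs_lower2 (s : BoundingSieve) (P : Finset ℕ) (hP : ∀ p ∈ P, p.Prime) (hP3 : ∀ p ∈ P, 3 ≤ p)
    (hs : s.prodPrimes = ∏ p ∈ P, p) (hnu : ∀ p ∈ P, s.nu p = 2 / (p : ℝ)) (q y : ℕ) (hq : 1 ≤ q)
    (hPP : ∀ p, p.Prime → p ≤ y → ¬ p ∣ q → p ∈ P) :
    (((Nat.totient q : ℝ) / q) * Real.log (y + 1 : ℕ)) ^ 2 ≤ Gs s (y ^ 2) := by
  have hqR : (0 : ℝ) < q := by exact_mod_cast hq
  have hphi : (0 : ℝ) < (Nat.totient q : ℝ) := by exact_mod_cast Nat.totient_pos.2 hq
  have h1 := Pool.Agent.Lib.MP_663568_nt.Nul.Sel.log_le q y hq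
  have h2 : ((Nat.totient q : ℝ) / q) * Real.log (y + 1 : ℕ) ≤ GG q y := by
    calc ((Nat.totient q : ℝ) / q) * Real.log (y + 1 : ℕ)
        ≤ ((Nat.totient q : ℝ) / q) * (((q : ℝ) / Nat.totient q) * GG q y) :=
          mul_le_mul_of_nonneg_left h1 (by positivity)
      _ = GG q y := by field_simp
  have h0 : 0 ≤ Real.log (y + 1 : ℕ) := Real.log_natCast_nonneg _
  have h3 := GG_le_TT q y P (fun p hp => (hP p hp).two_le) hPP
  have hf : ∀ p ∈ P, 0 ≤ (fun p : ℕ => 1 / ((p : ℝ) - 1)) p := by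
    intro p hp
    have : (3 : ℝ) ≤ p := by exact_mod_cast hP3 p hp
    apply div_nonneg zero_le_one; linarith
  have h4 := TT_sq P (fun p hp => (hP p hp).one_lt.le) (fun p => 1 / ((p : ℝ) - 1)) hf y
    (Nat.cast_nonneg _)
  have h5 := TT_le_Gs s P hP hs (y ^ 2)
  have hF : ∀ p ∈ P, 0 ≤ (fun p : ℕ => (1 + 1 / ((p : ℝ) - 1)) ^ 2 - 1) p := by
    intro p hp
    have h := hf p hp
    simp only at h ⊢
    have : 1 ≤ (1 + 1 / ((p : ℝ) - 1)) ^ 2 := one_le_pow₀ (by linarith)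
    linarith
  have h6 := TT_monof P (fun p => (1 + 1 / ((p : ℝ) - 1)) ^ 2 - 1)
    (fun p => s.nu p * (1 - s.nu p)⁻¹) hF (by
      intro p hp
      have h5 : (3 : ℝ) ≤ p := by exact_mod_cast hP3 p hp
      rw [hnu p hp]
      have hb : 0 < (p : ℝ) - 2 := by linarith
      have e1 : 2 / (p : ℝ) * (1 - 2 / (p : ℝ))⁻¹ = 2 / ((p : ℝ) - 2) := by
        have : (p : ℝ) ≠ 0 := by linarith
        field_simp
      rw [e1]
      have e2 : 1 + 1 / ((p : ℝ) - 1) = p / ((p : ℝ) - 1) := by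
        have : (p : ℝ) - 1 ≠ 0 := by linarith
        field_simp
        ring
      rw [e2, div_pow]
      have e3 : (2 : ℝ) / ((p : ℝ) - 2) = p / ((p : ℝ) - 2) - 1 := by
        field_simp; ring
      rw [e3]
      apply sub_le_sub_right
      rw [div_le_div_iff₀ (by apply pow_pos; linarith) hb]
      nlinarith [sq_nonneg ((p : ℝ) - 1), sq_nonneg (p : ℝ)]) ((y : ℝ) ^ 2)
  calc _ ≤ (GG q y) ^ 2 := pow_le_pow_left₀ (by positivity) h2 2
    _ ≤ (TT P (fun p => 1 / ((p : ℝ) - 1)) y) ^ 2 := by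
        apply pow_le_pow_left₀ _ h3
        unfold GG
        exact Finset.sum_nonneg (fun _ _ => by positivity)
    _ ≤ _ := h4
    _ ≤ _ := h6
    _ ≤ _ := by exact_mod_cast h5

/-- the product of the two linear forms -/
def F2 (d n : ℕ) : ℕ := n * (n + d)

lemma three_le {p d : ℕ} (hp : p.Prime) (hq : ¬ p ∣ 2 * d) : 3 ≤ p := by
  have h2 : ¬ p ∣ 2 := fun h => hq (h.trans (Dvd.intro _ rfl))
  have := hp.two_le
  by_contra h
  have h3 : p = 2 := by omega
  exact h2 (by rw [h3])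

lemma roots2_card {p d : ℕ} (hp : p.Prime) (hq : ¬ p ∣ 2 * d) :
    ((range p).filter (fun r => p ∣ F2 d r)).card = 2 := by
  have := Fact.mk hp
  have hd : ¬ p ∣ d := fun h => hq (h.trans (Dvd.intro_left _ rfl))
  have e1 : (d : ZMod p) ≠ 0 := fun h => hd ((ZMod.natCast_eq_zero_iff _ _).1 h)
  set Z : Finset (ZMod p) := {0, -(d : ZMod p)} with hZ
  have hZc : Z.card = 2 := by
    rw [hZ, Finset.card_insert_of_notMem, Finset.card_singleton]
    simp only [Finset.mem_singleton]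
    intro h
    apply e1
    linear_combination h
  have hFz : ∀ r : ℕ, p ∣ F2 d r ↔ (r : ZMod p) ∈ Z := by
    intro r
    rw [← ZMod.natCast_eq_zero_iff]
    unfold F2
    push_cast
    simp only [hZ, Finset.mem_insert, Finset.mem_singleton, mul_eq_zero]
    constructor
    · rintro (h | h)
      · exact Or.inl h
      · exact Or.inr (by linear_combination h)
    · rintro (h | h)
      · exact Or.inl h
      · exact Or.inr (by linear_combination h)
  have himg : (range p).filter (fun r => p ∣ F2 d r) = Z.image ZMod.val := by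
    ext r
    simp only [mem_filter, mem_range, mem_image]
    constructor
    · rintro ⟨h, h'⟩
      exact ⟨(r : ZMod p), (hFz r).1 h', ZMod.val_natCast_of_lt h⟩
    · rintro ⟨z, hz, rfl⟩
      refine ⟨ZMod.val_lt z, (hFz _).2 ?_⟩
      rw [ZMod.natCast_zmod_val]
      exact hz
  rw [himg, Finset.card_image_of_injective _ (ZMod.val_injective p), hZc]

lemma F2_strictMono (d : ℕ) {a b : ℕ} (hd : 1 ≤ d) (hab : a < b) : F2 d a < F2 d b := by
  unfold F2
  nlinarith

lemma F2_inj (d : ℕ) (hd : 1 ≤ d) : Function.Injective (F2 d) := by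
  intro a b h
  rcases lt_trichotomy a b with h' | h' | h'
  · exact absurd h (F2_strictMono d hd h').ne
  · exact h'
  · exact absurd h.symm (F2_strictMono d hd h').ne

/-- the density -/
noncomputable def nu2 : ArithmeticFunction ℝ :=
  ArithmeticFunction.prodPrimeFactors (fun p => 2 / (p : ℝ))

lemma nu2_apply {d : ℕ} (hd : d ≠ 0) : nu2 d = ∏ p ∈ d.primeFactors, (2 / (p : ℝ)) := by
  unfold nu2
  rw [ArithmeticFunction.prodPrimeFactors_apply hd]

lemma nu2_prime {p : ℕ} (hp : p.Prime) : nu2 p = 2 / (p : ℝ) := by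
  rw [nu2_apply hp.ne_zero, hp.primeFactors, Finset.prod_singleton]

/-- the sieve problem -/
noncomputable def B2 (x N d y : ℕ) : BoundingSieve where
  support := (Ico x (x + N)).image (F2 d)
  prodPrimes := ∏ p ∈ PS (2 * d) y, p
  prodPrimes_squarefree := sqf_prod _ (fun p hp => (mem_PS.1 hp).2.1)
  weights := fun _ => 1
  weights_nonneg := fun _ => zero_le_one
  totalMass := N
  nu := nu2
  nu_mult := ArithmeticFunction.IsMultiplicative.prodPrimeFactors _
  nu_pos_of_prime := by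
    intro p hp _
    rw [nu2_prime hp]
    have : (0 : ℝ) < p := by exact_mod_cast hp.pos
    positivity
  nu_lt_one_of_prime := by
    intro p hp hd
    rw [nu2_prime hp]
    have h1 : p ∈ PS (2 * d) y := by
      obtain ⟨r, hr, hpr⟩ := (hp.prime.dvd_finsetProd_iff _).1 hd
      rwa [(Nat.prime_dvd_prime_iff_eq hp (mem_PS.1 hr).2.1).1 hpr]
    have h5 : (3 : ℝ) ≤ p := by exact_mod_cast three_le hp (mem_PS.1 h1).2.2
    rw [div_lt_one (by linarith)]
    linarith

lemma B2_mem {x N d y e : ℕ} (he : e ∣ (B2 x N d y).prodPrimes) {p : ℕ}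
    (hp : p ∈ e.primeFactors) : p ≤ y ∧ p.Prime ∧ ¬ p ∣ 2 * d := by
  have hpp := Nat.prime_of_mem_primeFactors hp
  have h1 : p ∣ ∏ p ∈ PS (2 * d) y, p := (Nat.dvd_of_mem_primeFactors hp).trans he
  obtain ⟨r, hr, hpr⟩ := (hpp.prime.dvd_finsetProd_iff _).1 h1
  rw [(Nat.prime_dvd_prime_iff_eq hpp (mem_PS.1 hr).2.1).1 hpr]
  exact mem_PS.1 hr

lemma B2_rem (x N d y e : ℕ) (hd1 : 1 ≤ d) (he : e ∣ (B2 x N d y).prodPrimes) :
    |(B2 x N d y).rem e| ≤ (e : ℝ) := by
  have hsq : Squarefree e := squarefree_of_dvd_prodPrimes he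
  have he0 : e ≠ 0 := hsq.ne_zero
  have hmod : ∀ p k : ℕ, p ∣ F2 d (k % p) ↔ p ∣ F2 d k := by
    intro p k
    have e : F2 d (k % p) ≡ F2 d k [MOD p] := by
      unfold F2
      have h0 : k % p ≡ k [MOD p] := Nat.mod_modEq k p
      exact h0.mul (h0.add_right _)
    exact e.dvd_iff (dvd_refl p)
  set A : ℕ → Finset ℕ := fun p => (range p).filter (fun r => ¬ p ∣ F2 d r) with hA
  have hc := crtCount e.primeFactors (fun p hp => Nat.prime_of_mem_primeFactors hp)
    A (fun p _ => Finset.filter_subset _ _) 1 0 x (x + N) one_pos (Nat.coprime_one_left _)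
    (by omega)
  have hcard : ∀ p ∈ e.primeFactors, (1 - ((A p).card : ℝ) / p) = 2 / (p : ℝ) := by
    intro p hp
    obtain ⟨-, hpp, hpq⟩ := B2_mem he hp
    have h4 := roots2_card hpp hpq
    have h5 := Finset.card_filter_add_card_filter_not (s := range p)
      (fun r => p ∣ F2 d r)
    rw [h4, Finset.card_range] at h5
    have hp0 : (0 : ℝ) < p := by exact_mod_cast hpp.pos
    have h6 : ((A p).card : ℝ) = (p : ℝ) - 2 := by
      have : (A p).card + 2 = p := by rw [hA]; simp only; omega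
      rw [eq_sub_iff_add_eq]
      exact_mod_cast this
    rw [h6]
    field_simp
    ring
  have hset : (Ico x (x + N)).filter (fun k => k % 1 = 0 % 1 ∧ ∀ p ∈ e.primeFactors, k % p ∉ A p)
      = (Ico x (x + N)).filter (fun k => e ∣ F2 d k) := by
    apply Finset.filter_congr
    intro k _
    constructor
    · rintro ⟨_, h⟩
      rw [← Nat.prod_primeFactors_of_squarefree hsq]
      apply Finset.prod_primes_dvd
      · intro p hp
        exact (Nat.prime_of_mem_primeFactors hp).prime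
      · intro p hp
        have hpp := Nat.prime_of_mem_primeFactors hp
        have := h p hp
        rw [hA] at this
        simp only [mem_filter, mem_range, not_and, not_not] at this
        exact (hmod p k).1 (this (Nat.mod_lt _ hpp.pos))
    · intro h
      refine ⟨by simp [Nat.mod_one], ?_⟩
      intro p hp hmem
      rw [hA] at hmem
      simp only [mem_filter, mem_range] at hmem
      exact hmem.2 ((hmod p k).2 ((Nat.dvd_of_mem_primeFactors hp).trans h))
  rw [hset, Finset.prod_congr rfl hcard] at hc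
  have hprod : ∏ p ∈ e.primeFactors, (p : ℝ) = (e : ℝ) := by
    rw [← Nat.cast_prod, Nat.prod_primeFactors_of_squarefree hsq]
  rw [hprod] at hc
  have hms : (B2 x N d y).multSum e
      = (((Ico x (x + N)).filter (fun k => e ∣ F2 d k)).card : ℝ) := by
    change ∑ n ∈ (Ico x (x + N)).image (F2 d), (if e ∣ n then (1 : ℝ) else 0) = _
    rw [Finset.sum_image (fun a _ b _ h => F2_inj d hd1 h), Finset.card_filter]
    push_cast
    rfl
  unfold BoundingSieve.rem
  rw [hms]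
  change |_ - nu2 e * (N : ℝ)| ≤ _
  rw [nu2_apply he0]
  have e2 : (((x + N : ℕ) : ℝ) - (x : ℝ)) / ((1 : ℕ) : ℝ) = N := by
    push_cast; ring
  rw [e2] at hc
  rw [mul_comm (∏ p ∈ e.primeFactors, (2 / (p : ℝ)))]
  exact hc

lemma B2_nu (x N d y e : ℕ) (he : e ∣ (B2 x N d y).prodPrimes) :
    ((B2 x N d y).nu e)⁻¹ ≤ (e : ℝ) := by
  have hsq : Squarefree e := squarefree_of_dvd_prodPrimes he
  change (nu2 e)⁻¹ ≤ _
  rw [nu2_apply hsq.ne_zero, ← Finset.prod_inv_distrib]
  have hprod : ∏ p ∈ e.primeFactors, (p : ℝ) = (e : ℝ) := by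
    rw [← Nat.cast_prod, Nat.prod_primeFactors_of_squarefree hsq]
  rw [← hprod]
  apply Finset.prod_le_prod
  · intro p _; positivity
  · intro p hp
    have hp0 : (0 : ℝ) < p := by exact_mod_cast (Nat.prime_of_mem_primeFactors hp).pos
    rw [inv_div]
    linarith

/-- **The two-dimensional sieve bound.** -/
theorem twin_rough (x N d y : ℕ) (hd : 1 ≤ d) (hy : 1 ≤ y) (hN : y ^ 24 ≤ N) (S : Finset ℕ)
    (hS : ∀ n ∈ S, x ≤ n ∧ n < x + N ∧ ∀ p : ℕ, p.Prime → p ≤ y → ¬ p ∣ n ∧ ¬ p ∣ (n + d)) :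
    (S.card : ℝ) ≤ 5 * N / (Real.log (y + 1 : ℕ)) ^ 2 * rr d ^ 2 := by
  set q := 2 * d with hq
  have hq1 : 1 ≤ q := by omega
  have hqR : (0 : ℝ) < q := by exact_mod_cast hq1
  have hphi : (0 : ℝ) < (Nat.totient q : ℝ) := by exact_mod_cast Nat.totient_pos.2 hq1
  have hyR : (1 : ℝ) ≤ y := by exact_mod_cast hy
  have hy2 : (2 : ℝ) ≤ ((y + 1 : ℕ) : ℝ) := by push_cast; linarith
  have hlog : 0 < Real.log (y + 1 : ℕ) := Real.log_pos (by linarith)
  have hR1 : 1 ≤ y ^ 2 := Nat.one_le_pow _ _ hy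
  have hsel := selberg (B2 x N d y) (y ^ 2) hR1 (B2_nu x N d y) (fun e he => B2_rem x N d y e hd he)
  have hG := Gs_lower2 (B2 x N d y) (PS q y) (fun p hp => (mem_PS.1 hp).2.1)
    (fun p hp => three_le (mem_PS.1 hp).2.1 (mem_PS.1 hp).2.2) rfl
    (fun p hp => nu2_prime (mem_PS.1 hp).2.1) q y hq1
    (fun p hp h1 h2 => mem_PS.2 ⟨h1, hp, h2⟩)
  have hGpos := Gs_pos (B2 x N d y) (y ^ 2) hR1
  have hinv : (Gs (B2 x N d y) (y ^ 2))⁻¹ ≤ (rr q) ^ 2 / (Real.log (y + 1 : ℕ)) ^ 2 := by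
    calc (Gs (B2 x N d y) (y ^ 2))⁻¹
        ≤ ((((Nat.totient q : ℝ) / q) * Real.log (y + 1 : ℕ)) ^ 2)⁻¹ :=
          inv_anti₀ (by positivity) hG
      _ = _ := by unfold rr; field_simp
  have hcount : (S.card : ℝ) ≤ (B2 x N d y).siftedSum := by
    have hss : (B2 x N d y).siftedSum = (((Ico x (x + N)).filter (fun k =>
        Nat.Coprime (∏ p ∈ PS q y, p) (F2 d k))).card : ℝ) := by
      change ∑ n ∈ (Ico x (x + N)).image (F2 d),
        (if Nat.Coprime (∏ p ∈ PS q y, p) n then (1 : ℝ) else 0) = _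
      rw [Finset.sum_image (fun a _ b _ h => F2_inj d hd h), Finset.card_filter]
      push_cast
      rfl
    rw [hss]
    have hsub : S ⊆ (Ico x (x + N)).filter (fun k =>
        Nat.Coprime (∏ p ∈ PS q y, p) (F2 d k)) := by
      intro n hn
      obtain ⟨hn1, hn2, hn3⟩ := hS n hn
      rw [mem_filter, mem_Ico]
      refine ⟨⟨hn1, hn2⟩, ?_⟩
      apply Nat.Coprime.prod_left
      intro p hp
      obtain ⟨hpy, hpp, hpq⟩ := mem_PS.1 hp
      rw [Nat.Prime.coprime_iff_not_dvd hpp]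
      intro h
      unfold F2 at h
      obtain ⟨h1, h2⟩ := hn3 p hpp hpy
      rcases (hpp.dvd_mul).1 h with h | h
      · exact h1 h
      · exact h2 h
    exact_mod_cast Finset.card_le_card hsub
  have htm : (B2 x N d y).totalMass = N := rfl
  rw [htm] at hsel
  have hrr2 : rr q ≤ 2 * rr d := by
    refine (rr_mul 2 d).trans ?_
    apply mul_le_mul_of_nonneg_right _ (rr_nonneg d)
    unfold rr
    have : Nat.totient 2 = 1 := by decide
    rw [this]; norm_num
  have hrrd : 1 ≤ rr d := by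
    unfold rr
    rw [one_le_div (by exact_mod_cast Nat.totient_pos.2 hd)]
    exact_mod_cast Nat.totient_le d
  have hrq : 0 ≤ rr q := rr_nonneg q
  have hNR : (0 : ℝ) ≤ N := Nat.cast_nonneg _
  have hmain : (N : ℝ) * (Gs (B2 x N d y) (y ^ 2))⁻¹
      ≤ 4 * (N / (Real.log (y + 1 : ℕ)) ^ 2 * rr d ^ 2) := by
    calc (N : ℝ) * (Gs (B2 x N d y) (y ^ 2))⁻¹
        ≤ N * ((rr q) ^ 2 / (Real.log (y + 1 : ℕ)) ^ 2) :=
          mul_le_mul_of_nonneg_left hinv hNR
      _ ≤ N * ((2 * rr d) ^ 2 / (Real.log (y + 1 : ℕ)) ^ 2) := by gcongr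
      _ = _ := by ring
  have hrem : (((y ^ 2 : ℕ) : ℝ)) ^ 6 ≤ N / (Real.log (y + 1 : ℕ)) ^ 2 * rr d ^ 2 := by
    have h1 : Real.log (y + 1 : ℕ) ≤ y := by
      have := Real.log_le_sub_one_of_pos (show (0 : ℝ) < ((y + 1 : ℕ) : ℝ) by positivity)
      push_cast at this ⊢
      linarith
    have h2 : (((y ^ 2 : ℕ) : ℝ)) ^ 6 ≤ N / (Real.log (y + 1 : ℕ)) ^ 2 := by
      rw [le_div_iff₀ (by positivity)]
      calc (((y ^ 2 : ℕ) : ℝ)) ^ 6 * (Real.log (y + 1 : ℕ)) ^ 2
          ≤ (((y ^ 2 : ℕ) : ℝ)) ^ 6 * (y : ℝ) ^ 2 := by gcongr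
        _ = (y : ℝ) ^ 14 := by push_cast; ring
        _ ≤ (y : ℝ) ^ 24 := pow_le_pow_right₀ hyR (by norm_num)
        _ ≤ N := by exact_mod_cast hN
    calc _ ≤ N / (Real.log (y + 1 : ℕ)) ^ 2 * 1 := by rw [mul_one]; exact h2
      _ ≤ _ := by
        apply mul_le_mul_of_nonneg_left _ (by positivity)
        exact one_le_pow₀ hrrd
  have e5 : 5 * N / (Real.log (y + 1 : ℕ)) ^ 2 * rr d ^ 2
      = 5 * (N / (Real.log (y + 1 : ℕ)) ^ 2 * rr d ^ 2) := by ring
  rw [e5]
  linarith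

end Pool.Agent.SV95
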