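import Mathlib
import Pool.Agent.Lib.SV95.Sieve2D
import Pool.Agent.Lib.MP_663568_nul.Vino

/-! THEOREM V (MP_663568_nt), row NT: many differences `n₁ - n₂` of rough integers with
`(n₁ - n₂) β` close to a multiple of `M` force `q β` to be close to a multiple of `M`, `q` bounded.
helper95. -/

set_option autoImplicit false
open Finset

namespace Pool.Agent.SV95

open Pool.Agent.FQ
open Pool.Agent.Lib.MP_663568_nt.Nul (nd nd_le nd_exists vino)

lemma one_le_rr {d : ℕ} (hd : 1 ≤ d) : 1 ≤ rr d := by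
  unfold rr
  rw [one_le_div (by exact_mod_cast Nat.totient_pos.2 hd)]
  exact_mod_cast Nat.totient_le d

/-- sum of inverse squares -/
lemma sum_inv_sq (T : Finset ℕ) (K : ℝ) (hK : 2 ≤ K) (hT : ∀ n ∈ T, K ≤ n) :
    ∑ n ∈ T, 1 / (n : ℝ) ^ 2 ≤ 2 / K := by
  set k := ⌈K⌉₊ - 1 with hk
  have hc : 2 ≤ ⌈K⌉₊ := by
    have : (2 : ℝ) ≤ (⌈K⌉₊ : ℝ) := hK.trans (Nat.le_ceil K)
    exact_mod_cast this
  have hk0 : k ≠ 0 := by omega
  have hkK : K / 2 ≤ k := by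
    have h1 := Nat.le_ceil K
    have h2 : ((k : ℕ) : ℝ) = (⌈K⌉₊ : ℝ) - 1 := by
      rw [hk, Nat.cast_sub (by omega)]; simp
    rw [h2]; linarith
  set n := max k (T.sup id) with hn
  have hsub : T ⊆ Ioc k n := by
    intro m hm
    rw [mem_Ioc]
    constructor
    · have := Nat.ceil_le.2 (hT m hm)
      omega
    · exact (Finset.le_sup (f := id) hm).trans (le_max_right _ _)
  have h1 : ∑ m ∈ T, 1 / (m : ℝ) ^ 2 ≤ ∑ m ∈ Ioc k n, ((m : ℝ) ^ 2)⁻¹ := by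
    refine (Finset.sum_le_sum_of_subset_of_nonneg hsub fun _ _ _ => by positivity).trans ?_
    exact le_of_eq (Finset.sum_congr rfl fun _ _ => one_div _)
  have h2 := sum_Ioc_inv_sq_le_sub (α := ℝ) hk0 (le_max_left k (T.sup id))
  have hk1 : (0 : ℝ) < k := by exact_mod_cast Nat.pos_of_ne_zero hk0
  have h3 : (0 : ℝ) ≤ ((n : ℕ) : ℝ)⁻¹ := by positivity
  have h4 : ((k : ℕ) : ℝ)⁻¹ ≤ 2 / K := by
    rw [inv_eq_one_div, div_le_div_iff₀ hk1 (by linarith)]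
    linarith
  rw [← hn] at h2
  linarith

/-- the data of row NT for one pair -/
def Good (P R M β E : ℝ) (B : ℕ) (a : ℕ × ℕ) : Prop :=
  P ^ 25 * R ≤ a.1 ∧ P ^ 25 * R ≤ a.2 ∧ (a.1 : ℝ) ≤ P ^ B ∧ (a.2 : ℝ) ≤ P ^ B ∧
  (∀ p : ℕ, p.Prime → (p : ℝ) < P → ¬ p ∣ a.1 ∧ ¬ p ∣ a.2) ∧
  |Real.log a.1 - Real.log a.2| ≤ 1 / R ∧
  ∃ j : ℤ, |((a.1 : ℝ) - a.2) * β - j * M| ≤ 2 * (a.1 + a.2) * E

lemma Good.swap {P R M β E : ℝ} {B : ℕ} {a : ℕ × ℕ} (h : Good P R M β E B a) :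
    Good P R M β E B a.swap := by
  obtain ⟨h1, h2, h3, h4, h5, h6, j, h7⟩ := h
  refine ⟨h2, h1, h4, h3, fun p hp hpP => (h5 p hp hpP).symm, ?_, -j, ?_⟩
  · rw [abs_sub_comm]; exact h6
  · rw [← abs_neg]
    simp only [Prod.fst_swap, Prod.snd_swap]
    push_cast
    calc |-((((a.2 : ℕ) : ℝ) - a.1) * β - -(j : ℝ) * M)| = |((a.1 : ℝ) - a.2) * β - j * M| := by
          congr 1; ring
      _ ≤ 2 * (a.1 + a.2) * E := h7
      _ = _ := by ring

/-- one dyadic block -/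
lemma block (C : ℝ) (hC : 0 < C) (hW : ∀ m : ℕ, ∑ k ∈ Icc 1 m, WW k ≤ C * m)
    (B : ℕ) (c2 : ℝ) (hc2 : 0 < c2) (P R M β E : ℝ) (Z : ℕ) (Ω : Finset (ℕ × ℕ))
    (hP2 : 2 ≤ P) (hPκ : 1024 * (16 * C / c2 ^ 2) ≤ P)
    (hR : 1 ≤ R) (hM : 0 < M) (hE : 0 ≤ E) (hEM : P ^ (B + 1) * E ≤ M)
    (hΩ : ∀ a ∈ Ω, Good P R M β E B a ∧ a.1 < a.2 ∧ Z ≤ a.1 ∧ a.1 < 2 * Z)
    (hsum : 5 * c2 / (R * Real.log P ^ 2) ≤ ∑ a ∈ Ω, 1 / ((a.1 : ℝ) * a.2)) :
    ∃ q : ℕ, 1 ≤ q ∧ (q : ℝ) ≤ 6 * (16 * C / c2 ^ 2) ∧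
      ∃ j : ℤ, |(q : ℝ) * β - j * M| ≤ 8 * (16 * C / c2 ^ 2) * R * E := by
  have hlogP : 0 < Real.log P := Real.log_pos (by linarith)
  have hR0 : 0 < R := by linarith
  have hP0 : 0 < P := by linarith
  -- `Ω` is not empty
  have hne : Ω.Nonempty := by
    rw [Finset.nonempty_iff_ne_empty]
    rintro rfl
    rw [Finset.sum_empty] at hsum
    have : 0 < 5 * c2 / (R * Real.log P ^ 2) := by positivity
    linarith
  obtain ⟨a0, ha0⟩ := hne
  obtain ⟨hg0, hlt0, hZ1, hZ2⟩ := hΩ a0 ha0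
  have hZ2' : (a0.1 : ℝ) < 2 * Z := by exact_mod_cast hZ2
  have hZbig : P ^ 25 * R / 2 < Z := by linarith [hg0.1]
  have hZup : (Z : ℝ) ≤ P ^ B := le_trans (by exact_mod_cast hZ1) hg0.2.2.1
  have hP25 : P ≤ P ^ 25 := le_self_pow₀ (by linarith) (by norm_num)
  have hZ0 : (0 : ℝ) < Z := by
    have : 0 < P ^ 25 * R / 2 := by positivity
    linarith
  -- the sieve limit
  set y := ⌈P⌉₊ - 1 with hy
  have hceil : 2 ≤ ⌈P⌉₊ := by
    have : (2 : ℝ) ≤ (⌈P⌉₊ : ℝ) := hP2.trans (Nat.le_ceil P)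
    exact_mod_cast this
  have hy1 : 1 ≤ y := by omega
  have hyc : ((y : ℕ) : ℝ) = (⌈P⌉₊ : ℝ) - 1 := by rw [hy, Nat.cast_sub (by omega)]; simp
  have hyP : (y : ℝ) < P := by
    have := Nat.ceil_lt_add_one hP0.le
    rw [hyc]; linarith
  have hy2 : P ≤ ((y + 1 : ℕ) : ℝ) := by
    push_cast
    rw [hyc]
    have := Nat.le_ceil P
    linarith
  have hlogy : Real.log P ≤ Real.log (y + 1 : ℕ) := Real.log_le_log hP0 hy2
  have hyN : y ^ 24 ≤ Z := by
    have h1 : ((y : ℝ)) ^ 24 ≤ Z := by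
      calc ((y : ℝ)) ^ 24 ≤ P ^ 24 := pow_le_pow_left₀ (Nat.cast_nonneg _) hyP.le 24
        _ ≤ P ^ 25 * R / 2 := by
          have h2 : P ^ 25 = P ^ 24 * P := by ring
          have h3 : 0 ≤ P ^ 24 := by positivity
          rw [h2]
          have h4 : 2 ≤ P * R := by nlinarith
          nlinarith
        _ ≤ Z := hZbig.le
    exact_mod_cast h1
  -- differences
  set D := Ω.image (fun a => a.2 - a.1) with hD
  set X := ⌊4 * Z / R⌋₊ with hX
  have hdiff : ∀ a ∈ Ω, ((a.2 : ℝ) - a.1) ≤ 4 * Z / R := by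
    intro a ha
    obtain ⟨hg, hlt, h1, h2⟩ := hΩ a ha
    obtain ⟨g1, g2, g3, g4, g5, g6, g7⟩ := hg
    have hpos : 0 < P ^ 25 * R := by positivity
    have ha1 : (0 : ℝ) < a.1 := by linarith
    have ha2 : (0 : ℝ) < a.2 := by linarith
    have e1 : Real.log a.2 ≤ Real.log a.1 + 1 / R := by
      have := (abs_le.1 g6).1; linarith
    have e2 : (a.2 : ℝ) ≤ a.1 * Real.exp (1 / R) := by
      calc (a.2 : ℝ) = Real.exp (Real.log a.2) := (Real.exp_log ha2).symm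
        _ ≤ Real.exp (Real.log a.1 + 1 / R) := Real.exp_le_exp.2 e1
        _ = _ := by rw [Real.exp_add, Real.exp_log ha1]
    have hR1 : 1 / R ≤ 1 := by rw [div_le_one hR0]; exact hR
    have hRp : 0 < 1 / R := by positivity
    have e3 : Real.exp (1 / R) ≤ 1 + 2 * (1 / R) := by
      have := Real.abs_exp_sub_one_sub_id_le (x := 1 / R) (by rw [abs_of_pos hRp]; exact hR1)
      have h4 := (abs_le.1 this).2
      nlinarith
    have e4 : (a.1 : ℝ) ≤ 2 * Z := by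
      have : (a.1 : ℝ) < 2 * Z := by exact_mod_cast h2
      exact this.le
    calc (a.2 : ℝ) - a.1 ≤ a.1 * Real.exp (1 / R) - a.1 := by linarith
      _ ≤ a.1 * (1 + 2 * (1 / R)) - a.1 := by
        have := mul_le_mul_of_nonneg_left e3 ha1.le
        linarith
      _ = a.1 * (2 / R) := by ring
      _ ≤ 2 * Z * (2 / R) := by
        apply mul_le_mul_of_nonneg_right e4 (by positivity)
      _ = _ := by ring
  have hDX : D ⊆ Icc 1 X := by
    intro d hd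
    obtain ⟨a, ha, rfl⟩ := Finset.mem_image.1 hd
    obtain ⟨hg, hlt, h1, h2⟩ := hΩ a ha
    rw [mem_Icc]
    refine ⟨by omega, Nat.le_floor ?_⟩
    rw [Nat.cast_sub hlt.le]
    exact hdiff a ha
  have hX1 : (X : ℝ) ≤ 4 * Z / R := Nat.floor_le (by positivity)
  have hZR : P ^ 25 / 2 < Z / R := by
    rw [lt_div_iff₀ hR0]
    have h1 : P ^ 25 / 2 * R = P ^ 25 * R / 2 := by ring
    rw [h1]
    exact hZbig
  have hX2 : 2 * Z / R ≤ X := by
    have h1 : 4 * (Z : ℝ) / R < X + 1 := Nat.lt_floor_add_one _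
    have h2 : (1 : ℝ) ≤ 2 * (Z / R) := by
      have : (1 : ℝ) ≤ P ^ 25 := one_le_pow₀ (by linarith)
      linarith
    have h3 : 4 * (Z : ℝ) / R = 2 * Z / R + 2 * (Z / R) := by ring
    linarith
  -- counting
  have hfib : ∀ d ∈ D, ((Ω.filter (fun a => a.2 - a.1 = d)).card : ℝ)
      ≤ 5 * Z / (Real.log P) ^ 2 * rr d ^ 2 := by
    intro d hd
    have hd1 : 1 ≤ d := (mem_Icc.1 (hDX hd)).1
    set S := (Ω.filter (fun a => a.2 - a.1 = d)).image Prod.fst with hS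
    have hcard : (Ω.filter (fun a => a.2 - a.1 = d)).card = S.card := by
      rw [hS, Finset.card_image_of_injOn]
      intro a ha b hb hab
      obtain ⟨ha1, ha2⟩ := Finset.mem_filter.1 (Finset.mem_coe.1 ha)
      obtain ⟨hb1, hb2⟩ := Finset.mem_filter.1 (Finset.mem_coe.1 hb)
      have l1 := (hΩ a ha1).2.1
      have l2 := (hΩ b hb1).2.1
      apply Prod.ext hab
      have : a.1 = b.1 := hab
      omega
    have htw := twin_rough Z Z d y hd1 hy1 hyN S (by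
      intro n hn
      obtain ⟨a, ha, rfl⟩ := Finset.mem_image.1 hn
      obtain ⟨ha1, ha2⟩ := Finset.mem_filter.1 ha
      obtain ⟨hg, hlt, h1, h2⟩ := hΩ a ha1
      refine ⟨h1, by omega, fun p hp hpy => ?_⟩
      have hpP : (p : ℝ) < P := lt_of_le_of_lt (by exact_mod_cast hpy) hyP
      have h5 := hg.2.2.2.2.1 p hp hpP
      have : a.1 + d = a.2 := by omega
      rw [this]
      exact h5)
    rw [hcard]
    refine htw.trans ?_
    have hrr := rr_nonneg d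
    gcongr
  have hcardΩ : (Ω.card : ℝ) ≤ ∑ d ∈ D, 5 * Z / (Real.log P) ^ 2 * rr d ^ 2 := by
    have h1 : Ω.card = ∑ d ∈ D, (Ω.filter (fun a => a.2 - a.1 = d)).card :=
      Finset.card_eq_sum_card_image (fun a => a.2 - a.1) Ω
    rw [h1]
    push_cast
    exact Finset.sum_le_sum hfib
  have hsum2 : ∑ a ∈ Ω, 1 / ((a.1 : ℝ) * a.2) ≤ Ω.card * (1 / (Z : ℝ) ^ 2) := by
    rw [← nsmul_eq_mul]
    apply Finset.sum_le_card_nsmul
    intro a ha
    obtain ⟨hg, hlt, h1, h2⟩ := hΩ a ha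
    have h3 : (Z : ℝ) ≤ a.1 := by exact_mod_cast h1
    have h4 : (Z : ℝ) ≤ a.2 := by exact_mod_cast (h1.trans hlt.le)
    apply one_div_le_one_div_of_le (by positivity)
    rw [sq]
    exact mul_le_mul h3 h4 hZ0.le (by linarith)
  have hrr2 : c2 * (Z / R) ≤ ∑ d ∈ D, rr d ^ 2 := by
    have h1 : 5 * c2 / (R * Real.log P ^ 2) ≤ (∑ d ∈ D, 5 * Z / (Real.log P) ^ 2 * rr d ^ 2)
        * (1 / (Z : ℝ) ^ 2) :=
      hsum.trans (hsum2.trans (mul_le_mul_of_nonneg_right hcardΩ (by positivity)))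
    rw [← Finset.mul_sum] at h1
    have h2 : 5 * Z / (Real.log P) ^ 2 * (∑ d ∈ D, rr d ^ 2) * (1 / (Z : ℝ) ^ 2)
        = 5 * (∑ d ∈ D, rr d ^ 2) / (Z * Real.log P ^ 2) := by
      field_simp
    rw [h2, div_le_div_iff₀ (by positivity) (by positivity)] at h1
    have h3 : c2 * Z ≤ (∑ d ∈ D, rr d ^ 2) * R := by
      have hl2 : 0 < Real.log P ^ 2 := by positivity
      have h4 : (c2 * Z) * (5 * Real.log P ^ 2) ≤ ((∑ d ∈ D, rr d ^ 2) * R) * (5 * Real.log P ^ 2) := by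
        calc (c2 * Z) * (5 * Real.log P ^ 2) = 5 * c2 * (Z * Real.log P ^ 2) := by ring
          _ ≤ _ := h1
          _ = _ := by ring
      exact le_of_mul_le_mul_right h4 (by positivity)
    rw [← mul_div_assoc, div_le_iff₀ hR0]
    exact h3
  -- Cauchy-Schwarz
  have hCS : (∑ d ∈ D, rr d ^ 2) ^ 2 ≤ D.card * (C * X) := by
    refine (sq_sum_le_card_mul_sum_sq (s := D) (f := fun d => rr d ^ 2)).trans ?_
    apply mul_le_mul_of_nonneg_left _ (Nat.cast_nonneg _)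
    calc ∑ d ∈ D, (rr d ^ 2) ^ 2 ≤ ∑ d ∈ D, WW d := by
          apply Finset.sum_le_sum
          intro d hd
          have h1 := one_le_rr (mem_Icc.1 (hDX hd)).1
          unfold WW
          rw [← pow_mul]
          exact pow_le_pow_right₀ h1 (by norm_num)
      _ ≤ ∑ d ∈ Icc 1 X, WW d :=
          Finset.sum_le_sum_of_subset_of_nonneg hDX (fun d _ _ => WW_nonneg d)
      _ ≤ C * X := hW X
  set κ : ℝ := c2 ^ 2 / (16 * C) with hκ
  have hκ0 : 0 < κ := by positivity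
  have hκinv : 16 * C / c2 ^ 2 = 1 / κ := by rw [hκ]; field_simp
  rw [hκinv] at hPκ ⊢
  have hXpos : (0 : ℝ) < X := lt_of_lt_of_le (by positivity) hX2
  have hcardD : κ * X ≤ D.card := by
    have h1 : (c2 * (Z / R)) ^ 2 ≤ D.card * (C * X) :=
      (pow_le_pow_left₀ (by positivity) hrr2 2).trans hCS
    have h2 : (X : ℝ) / 4 ≤ Z / R := by
      have : 4 * (Z : ℝ) / R = 4 * (Z / R) := by ring
      linarith
    have h3 : c2 ^ 2 * (X / 4) ^ 2 ≤ D.card * (C * X) := by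
      calc c2 ^ 2 * ((X : ℝ) / 4) ^ 2 ≤ c2 ^ 2 * (Z / R) ^ 2 := by gcongr
        _ = (c2 * (Z / R)) ^ 2 := by ring
        _ ≤ _ := h1
    have h4 : (κ * X) * (C * X) ≤ D.card * (C * X) := by
      calc (κ * X) * (C * X) = c2 ^ 2 * (X / 4) ^ 2 := by rw [hκ]; field_simp; ring
        _ ≤ _ := h3
    exact le_of_mul_le_mul_right h4 (by positivity)
  have hκP : 1024 ≤ κ * P := by
    have h1 : 1024 * (1 / κ) = 1024 / κ := by ring
    rw [h1, div_le_iff₀ hκ0] at hPκ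
    linarith
  have h4X : 4 ≤ κ * X := by
    have h1 : P ≤ X := by
      have h2 : P ^ 25 < 2 * Z / R := by
        have : 2 * (Z : ℝ) / R = 2 * (Z / R) := by ring
        linarith
      linarith
    have h2 : κ * P ≤ κ * X := mul_le_mul_of_nonneg_left h1 hκ0.le
    linarith
  set δ : ℝ := 16 * Z * E / M with hδ
  have hδ0 : 0 ≤ δ := by positivity
  have hδκ : δ ≤ κ / 64 := by
    rw [hδ, div_le_div_iff₀ hM (by norm_num)]
    have h1 : Z * E * P ≤ M := by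
      calc Z * E * P ≤ P ^ B * E * P := by gcongr
        _ = P ^ (B + 1) * E := by ring
        _ ≤ M := hEM
    have h2 : 0 ≤ Z * E := by positivity
    have h3 : 1024 * (Z * E) ≤ κ * P * (Z * E) := mul_le_mul_of_nonneg_right hκP h2
    have h4 : κ * (Z * E * P) ≤ κ * M := mul_le_mul_of_nonneg_left h1 hκ0.le
    nlinarith
  obtain ⟨q, hq1, hq2, hq3⟩ := vino (β / M) κ δ X D hDX hκ0 h4X hδ0 hδκ hcardD (by
    intro d hd
    obtain ⟨a, ha, rfl⟩ := Finset.mem_image.1 hd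
    obtain ⟨hg, hlt, h1, h2⟩ := hΩ a ha
    obtain ⟨g1, g2, g3, g4, g5, g6, j, g7⟩ := hg
    refine (nd_le _ (-j)).trans ?_
    have e1 : (((a.2 - a.1 : ℕ) : ℝ) * (β / M) - ((-j : ℤ) : ℝ))
        = -(((a.1 : ℝ) - a.2) * β - j * M) / M := by
      rw [Nat.cast_sub hlt.le]
      push_cast
      field_simp
      ring
    rw [e1, abs_div, abs_neg, abs_of_pos hM, hδ]
    apply div_le_div_of_nonneg_right _ hM.le
    refine g7.trans ?_
    have e4 : (a.1 : ℝ) ≤ 2 * Z := by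
      have : (a.1 : ℝ) < 2 * Z := by exact_mod_cast h2
      exact this.le
    have e5 := hdiff a ha
    have e6 : 4 * (Z : ℝ) / R ≤ 4 * Z := by
      rw [div_le_iff₀ hR0]; nlinarith
    have e7 : (a.1 : ℝ) + a.2 ≤ 8 * Z := by linarith
    nlinarith)
  refine ⟨q, hq1, by calc (q : ℝ) ≤ 6 / κ := hq2
      _ = 6 * (1 / κ) := by ring, ?_⟩
  obtain ⟨j, hj⟩ := nd_exists ((q : ℝ) * (β / M))
  refine ⟨j, ?_⟩
  rw [hj] at hq3
  have e1 : (q : ℝ) * β - j * M = ((q : ℝ) * (β / M) - j) * M := by field_simp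
  rw [e1, abs_mul, abs_of_pos hM]
  calc |(q : ℝ) * (β / M) - j| * M ≤ δ / (κ * X) * M := mul_le_mul_of_nonneg_right hq3 hM.le
    _ = 16 * Z * E / (κ * X) := by rw [hδ]; field_simp
    _ ≤ 16 * Z * E / (κ * (2 * Z / R)) := by
        apply div_le_div_of_nonneg_left (by positivity) (by positivity)
        exact mul_le_mul_of_nonneg_left hX2 hκ0.le
    _ = 8 * (1 / κ) * R * E := by field_simp; ring

end Pool.Agent.SV95
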